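import Pool.Agent.helper79.SX.Spec

set_option autoImplicit false

open Finset ArithmeticFunction

namespace Pool.Agent.SX

theorem GOS_frc {β : Type} (n : ℕ) (f : ℕ → β) : frc n f = f n := by
  cases n <;> rfl

theorem GOS_succ (E a tgt f A B : ℕ) (par : Bool) (k i acc : ℕ) :
    go E a tgt (f + 1) A B par k i acc =
      cond (and par (Nat.ble (acc + dig E k * dig A i + dig E (k + 1) * 1099511627776) tgt)) true
        (cond (Nat.ble (2 * a) i)
          (go E a tgt f B A (not par) (k + 1) (i - a) (acc + dig E k * dig A i)) false) := by
  have h : go E a tgt (f + 1) A B par k i acc = frc (acc + dig E k * dig A i) (fun acc' =>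
      cond (and par (Nat.ble (acc' + dig E (k + 1) * 1099511627776) tgt)) true
        (cond (Nat.ble (2 * a) i) (go E a tgt f B A (not par) (k + 1) (i - a) acc') false)) := rfl
  rw [h, GOS_frc]

theorem GOS : GOS_stmt := by
  intro E a tgt f
  induction f with
  | zero =>
    intro A B par k i acc _ _ h
    exact absurd h (by show ¬ (false = true); simp)
  | succ f ih =>
    intro A B par k i acc ha hai h
    rw [GOS_succ] at h
    obtain ⟨acc', hacc'⟩ : ∃ x, x = acc + dig E k * dig A i := ⟨_, rfl⟩
    rw [← hacc'] at h
    by_cases hc : (and par (Nat.ble (acc' + dig E (k + 1) * 1099511627776) tgt)) = true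
    · rw [Bool.and_eq_true] at hc
      refine ⟨0, Nat.succ_pos f, ?_, ?_, ?_⟩
      · simp [hc.1]
      · omega
      · have h1 := Nat.le_of_ble_eq_true hc.2
        simp only [zero_add, range_one, sum_singleton, add_zero, zero_mul, Nat.sub_zero, Even.zero,
          if_true]
        rw [← hacc']
        have h2 : (2 : ℕ) ^ 40 = 1099511627776 := by norm_num
        rw [h2]
        exact h1
    · rw [Bool.not_eq_true] at hc
      rw [hc, cond_false] at h
      by_cases h2 : Nat.ble (2 * a) i = true
      · rw [h2, cond_true] at h
        have h3 := Nat.le_of_ble_eq_true h2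
        obtain ⟨r, hr, hpar, hri, hsum⟩ := ih B A (not par) (k + 1) (i - a) acc' ha (by omega) h
        refine ⟨r + 1, by omega, ?_, ?_, ?_⟩
        · rw [Nat.even_add_one, ← hpar]
          simp
        · have h4 : (r + 1 + 1) * a = (r + 1) * a + a := by ring
          omega
        · rw [sum_range_succ']
          have h5 : ∑ j ∈ range (r + 1), dig E (k + (j + 1)) *
              dig (if Even (j + 1) then A else B) (i - (j + 1) * a) =
              ∑ j ∈ range (r + 1), dig E (k + 1 + j) *
              dig (if Even j then B else A) (i - a - j * a) := by
            refine sum_congr rfl fun j _ => ?_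
            have h6 : i - (j + 1) * a = i - a - j * a := by
              rw [Nat.sub_sub]
              congr 1
              ring
            have h7 : k + (j + 1) = k + 1 + j := by ring
            rw [h6, h7]
            congr 2
            by_cases h8 : Even j
            · rw [if_pos h8, if_neg (by rw [Nat.even_add_one]; exact fun h => h h8)]
            · rw [if_neg h8, if_pos (Nat.even_add_one.2 h8)]
          rw [h5]
          have h9 : k + 1 + r + 1 = k + (r + 1) + 1 := by ring
          rw [h9] at hsum
          simp only [add_zero, zero_mul, Nat.sub_zero, Even.zero, if_true]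
          have h10 : acc + (∑ j ∈ range (r + 1), dig E (k + 1 + j) *
              dig (if Even j then B else A) (i - a - j * a) + dig E k * dig A i) =
              acc' + ∑ j ∈ range (r + 1), dig E (k + 1 + j) *
              dig (if Even j then B else A) (i - a - j * a) := by
            rw [hacc']
            ring
          rw [h10]
          exact hsum
      · rw [Bool.not_eq_true] at h2
        rw [h2, cond_false] at h
        exact absurd h (by simp)

end Pool.Agent.SX
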